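import Mathlib
import Pool.Agent.Lib.MP_802a39_co.Defs
import Pool.Agent.Lib.MP_802a39_co.Lower
import Pool.Agent.Lib.MP_802a39_co.Upper

namespace Pool.Agent.Results.MP_802a39_co.Exact

open Filter Topology Pool.Agent.Lib.MP_802a39_co

theorem result : ∃ f : ℕ → ℝ, Tendsto f atTop (𝓝 0) ∧ ∀ᶠ n : ℕ in atTop,
    IsGreatest {k : ℕ | MakerWinsGame k n}
      ⌊2 * Real.logb 2 n - 2 * Real.logb 2 (Real.logb 2 n) - 3 + f n⌋₊ := by
  set x : ℕ → ℝ := fun n => 2 * Real.logb 2 n - 2 * Real.logb 2 (Real.logb 2 n) - 3 with hx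
  set kt : ℕ → ℕ := fun n => sSup {k : ℕ | MakerWinsGame k n} with hkt
  have hlow : ∀ ε : ℝ, 0 < ε → ∀ᶠ n : ℕ in atTop, ∀ k : ℕ, (k : ℝ) ≤ x n - ε →
      MakerWinsGame k n := fun ε hε => eventually_atTop.2 (lower_bound ε hε)
  have hx1 : ∀ᶠ n : ℕ in atTop, 1 ≤ x n := by
    have e2 := (Real.isLittleO_logb_id_atTop (b := 2)).bound (c := 1 / 2) (by norm_num)
    have e1 := ((Real.tendsto_logb_atTop (b := 2) (by norm_num)).comp
      tendsto_natCast_atTop_atTop).eventually (e2.and (eventually_ge_atTop 4))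
    filter_upwards [e1] with n hn
    obtain ⟨h1, h2⟩ := hn
    simp only [Function.comp] at h1 h2
    rw [id, Real.norm_of_nonneg (Real.logb_nonneg (by norm_num) (by linarith)),
      Real.norm_of_nonneg (by linarith)] at h1
    simp only [hx]
    linarith
  have hgr : ∀ᶠ n : ℕ in atTop, IsGreatest {k : ℕ | MakerWinsGame k n} (kt n) := by
    filter_upwards [hlow 1 one_pos, upper_bound 1 one_pos, hx1] with n h1 h2 h3
    have hb : BddAbove {k : ℕ | MakerWinsGame k n} := by
      refine ⟨⌈x n + 1⌉₊, fun k hk => ?_⟩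
      by_contra h4
      refine h2 k ((Nat.le_ceil _).trans ?_) hk
      exact_mod_cast (not_le.1 h4).le
    exact ⟨Nat.sSup_mem ⟨0, h1 0 (by push_cast; linarith)⟩ hb, fun k hk => le_csSup hb hk⟩
  refine ⟨fun n => if x n < kt n then kt n - x n else
    if x n < kt n + 1 then 0 else kt n + 1 - x n - 1 / ((n : ℝ) + 1), ?_, ?_⟩
  · refine Metric.tendsto_nhds.2 fun ε hε => ?_
    have e1 := tendsto_one_div_add_atTop_nhds_zero_nat (𝕜 := ℝ) |>.eventually
      (eventually_lt_nhds (half_pos hε))
    filter_upwards [hlow _ (half_pos hε), upper_bound _ hε, hgr, e1] with n h1 h2 h3 h4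
    have h5 : (0 : ℝ) < 1 / ((n : ℝ) + 1) := by positivity
    have h6 : (kt n : ℝ) < x n + ε := by
      by_contra h7
      exact h2 _ (not_lt.1 h7) h3.1
    have h7 : x n - ε / 2 < kt n + 1 := by
      by_contra h8
      have h9 := h3.2 (h1 (kt n + 1) (by push_cast; exact not_lt.1 h8))
      omega
    rw [Real.dist_eq, sub_zero, abs_lt]
    split_ifs
    · constructor <;> linarith
    · constructor <;> linarith
    · constructor <;> linarith
  · filter_upwards [hgr] with n h1
    have h5 : (0 : ℝ) < 1 / ((n : ℝ) + 1) := by positivity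
    have h6 : 1 / ((n : ℝ) + 1) ≤ 1 := by
      rw [div_le_one (by positivity)]
      linarith [Nat.cast_nonneg (α := ℝ) n]
    have h0 : (0 : ℝ) ≤ kt n := Nat.cast_nonneg _
    have h2 : ⌊x n + (if x n < kt n then kt n - x n else
        if x n < kt n + 1 then 0 else kt n + 1 - x n - 1 / ((n : ℝ) + 1))⌋₊ = kt n := by
      refine (Nat.floor_eq_iff ?_).2 ?_ <;> split_ifs
      · linarith
      · linarith
      · linarith
      · constructor <;> linarith
      · constructor <;> linarith
      · constructor <;> linarith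
    exact (congrArg (IsGreatest {k : ℕ | MakerWinsGame k n}) h2).mpr h1

end Pool.Agent.Results.MP_802a39_co.Exact
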